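import Pool.Agent.H56.HZ.GEN

/-!
# DIST: every matrix can be perturbed linearly to one with distinct eigenvalues
-/

namespace Pool.Agent.H56.HZ.DIST

open Matrix Pool.Agent.H12.HS Pool.Agent.H56.HZ.GEN

universe u

/-- a matrix with separable characteristic polynomial over an algebraically closed field is
diagonalizable with distinct eigenvalues -/
theorem diag {K : Type*} [Field K] [IsAlgClosed K] {d : ℕ} (B : Matrix (Fin d) (Fin d) K)
    (hB : B.charpoly.Separable) : ∃ (μ : Fin d → K) (U V : Matrix (Fin d) (Fin d) K),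
    Function.Injective μ ∧ U * V = 1 ∧ V * U = 1 ∧ B = U * Matrix.diagonal μ * V := by
  classical
  have hs : B.charpoly.Splits := IsAlgClosed.splits _
  have hn : B.charpoly.roots.Nodup := Polynomial.nodup_roots hB
  have hc : B.charpoly.roots.toFinset.card = d := by
    rw [Multiset.toFinset_card_of_nodup hn, ← hs.natDegree_eq_card_roots,
      B.charpoly_natDegree_eq_dim, Fintype.card_fin]
  let e := Finset.equivFinOfCardEq hc
  let μ : Fin d → K := fun i => (e.symm i : K)
  have hμ : Function.Injective μ := fun i j h => e.symm.injective (Subtype.ext h)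
  have hr : ∀ i, B.charpoly.eval (μ i) = 0 := by
    intro i
    have h1 := (e.symm i).2
    rw [Multiset.mem_toFinset, Polynomial.mem_roots'] at h1
    exact h1.2
  have hv : ∀ i, ∃ v : Fin d → K, v ≠ 0 ∧ (Matrix.scalar (Fin d) (μ i) - B) *ᵥ v = 0 := by
    intro i
    rw [Matrix.exists_mulVec_eq_zero_iff, ← Matrix.eval_charpoly]
    exact hr i
  choose v hv0 hv using hv
  have hBv : ∀ i, B *ᵥ v i = μ i • v i := by
    intro i
    have h1 := hv i
    rw [Matrix.sub_mulVec, sub_eq_zero] at h1
    rw [← h1]
    rw [Matrix.scalar_apply]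
    funext j
    rw [Matrix.mulVec_diagonal]
    rfl
  have hli : LinearIndependent K v := by
    refine Module.End.eigenvectors_linearIndependent' (Matrix.toLin' B) μ hμ v fun i => ?_
    rw [Module.End.hasEigenvector_iff, Module.End.mem_eigenspace_iff]
    exact ⟨by rw [Matrix.toLin'_apply]; exact hBv i, hv0 i⟩
  let U : Matrix (Fin d) (Fin d) K := Matrix.of fun i j => v j i
  have hU : IsUnit U := by
    rw [← Matrix.linearIndependent_cols_iff_isUnit]
    exact hli
  have hUd : IsUnit U.det := (Matrix.isUnit_iff_isUnit_det U).1 hU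
  have hBU : B * U = U * Matrix.diagonal μ := by
    ext i j
    rw [Matrix.mul_diagonal]
    have := congrFun (hBv j) i
    simp only [Pi.smul_apply, smul_eq_mul] at this
    rw [mul_comm (U i j)]
    exact this
  refine ⟨μ, U, U⁻¹, hμ, Matrix.mul_nonsing_inv _ hUd, Matrix.nonsing_inv_mul _ hUd, ?_⟩
  rw [← hBU, Matrix.mul_assoc, Matrix.mul_nonsing_inv _ hUd, Matrix.mul_one]

/-- resultants with a fixed second degree -/
theorem res_iff {K : Type*} [Field K] {d : ℕ} (f g : Polynomial K) (hf : f.Monic)
    (hd : f.natDegree = d) (hg : g.natDegree ≤ d) :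
    Polynomial.resultant f g d d ≠ 0 ↔ IsCoprime f g := by
  obtain ⟨e, he⟩ := Nat.exists_eq_add_of_le hg
  have h1 : Polynomial.resultant f g d d = Polynomial.resultant f g := by
    conv_lhs => rw [show Polynomial.resultant f g d d = Polynomial.resultant f g d
      (g.natDegree + e) by rw [← he]]
    rw [Polynomial.resultant_add_right_deg _ _ _ _ _ le_rfl, ← hd, hf.coeff_natDegree, one_pow,
      one_mul]
  rw [h1, ← Polynomial.isUnit_resultant_iff_isCoprime hf, isUnit_iff_ne_zero]

theorem dist : T_DIST.{u} := by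
  intro Ω _ _ d Y
  classical
  let m : Fin d → Ω := fun i => Infinite.natEmbedding Ω (i : ℕ)
  have hm : Function.Injective m := fun i j h =>
    Fin.ext ((Infinite.natEmbedding Ω).injective h)
  refine ⟨Matrix.diagonal m, ?_⟩
  intro Ω' _ _ ι hι
  set t' := ι PowerSeries.X with ht'
  set κ' : Ω →+* Ω' := ι.comp PowerSeries.C with hκ'
  have ht0 : t' ≠ 0 := iX_ne ι hι
  let A : Matrix (Fin d) (Fin d) (Polynomial Ω) :=
    (Polynomial.X : Polynomial Ω) • Y.map Polynomial.C + (Matrix.diagonal m).map Polynomial.C
  let P := A.charpoly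
  have hPd : P.natDegree = d := by
    rw [A.charpoly_natDegree_eq_dim, Fintype.card_fin]
  have hPm : P.Monic := A.charpoly_monic
  have hder : ∀ {K : Type u} [Field K] (φ : Polynomial Ω →+* K),
      (Polynomial.resultant (P.map φ) (P.map φ).derivative d d ≠ 0 ↔
        (P.map φ).Separable) := by
    intro K _ φ
    rw [Polynomial.separable_def]
    have h2 : (P.map φ).natDegree = d := by rw [hPm.natDegree_map, hPd]
    apply res_iff _ _ (hPm.map φ) h2
    rw [← h2]
    exact (Polynomial.natDegree_derivative_le _).trans (Nat.sub_le _ _)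
  have hmap : ∀ {K : Type u} [Field K] (φ : Polynomial Ω →+* K),
      Polynomial.resultant (P.map φ) (P.map φ).derivative d d =
      φ (Polynomial.resultant P P.derivative d d) := by
    intro K _ φ
    rw [Polynomial.derivative_map, Polynomial.resultant_map_map]
  have hne : Polynomial.resultant P P.derivative d d ≠ 0 := by
    intro h0
    have h1 := (hder (Polynomial.evalRingHom (0 : Ω))).2 ?_
    · rw [hmap, h0, map_zero] at h1
      exact h1 rfl
    · have h2 : P.map (Polynomial.evalRingHom (0 : Ω)) = (Matrix.diagonal m).charpoly := by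
        rw [← Matrix.charpoly_map]
        congr 1
        ext i j
        simp only [A, Matrix.map_apply, Matrix.add_apply, Matrix.smul_apply, smul_eq_mul,
          Polynomial.coe_evalRingHom, Polynomial.eval_add, Polynomial.eval_mul,
          Polynomial.eval_X, Polynomial.eval_C, zero_mul, zero_add]
      rw [h2, Matrix.charpoly_diagonal]
      exact Polynomial.separable_prod_X_sub_C_iff.2 hm
  let φ := Polynomial.eval₂RingHom (ι.comp PowerSeries.C) (ι PowerSeries.X)⁻¹
  have h1 : (P.map φ).Separable := by
    rw [← hder, hmap]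
    exact transInv ι hι _ hne
  have h2 : A.map φ = t'⁻¹ • Y.map κ' + (Matrix.diagonal m).map κ' := by
    ext i j
    simp only [A, φ, ht', hκ', Matrix.map_apply, Matrix.add_apply, Matrix.smul_apply, smul_eq_mul,
      Polynomial.coe_eval₂RingHom]
    rw [Polynomial.eval₂_add, Polynomial.eval₂_C, ← Polynomial.coe_eval₂RingHom, map_mul,
      Polynomial.coe_eval₂RingHom, Polynomial.eval₂_C, Polynomial.eval₂_X]
  have h3 : P.map φ = (t'⁻¹ • Y.map κ' + (Matrix.diagonal m).map κ').charpoly := by
    rw [← h2, Matrix.charpoly_map]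
  rw [h3] at h1
  obtain ⟨μ, U, V, hμ, hUV, -, hB⟩ := diag _ h1
  refine ⟨fun i => t' * μ i, U, V, fun i j h => hμ (mul_left_cancel₀ ht0 h), hUV, ?_⟩
  have h4 : Y.map κ' + t' • (Matrix.diagonal m).map κ' =
      t' • (t'⁻¹ • Y.map κ' + (Matrix.diagonal m).map κ') := by
    rw [smul_add, smul_smul, mul_inv_cancel₀ ht0, one_smul]
  have h5 : Matrix.diagonal (fun i => t' * μ i) = t' • Matrix.diagonal μ := by
    rw [← Matrix.diagonal_smul]
    rfl
  rw [h4, hB, h5, Matrix.mul_smul, Matrix.smul_mul]

end Pool.Agent.H56.HZ.DIST
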