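import Pool.Agent.H12.HS.Targets
import Pool.Agent.H12.HS.Basic

/-!
# GEN: `Y + t R` is nonderogatory for a transcendental `t` if `R` is nonderogatory
-/

namespace Pool.Agent.H56.HZ.GEN

open Matrix Pool.Agent.H12.HS

universe u

section Trans
variable {Ω Ω' : Type u} [Field Ω] [Field Ω'] (ι : PowerSeries Ω →+* Ω')

theorem eval₂_eq (p : Polynomial Ω) :
    Polynomial.eval₂ (ι.comp PowerSeries.C) (ι PowerSeries.X) p = ι (p : PowerSeries Ω) := by
  have h : Polynomial.eval₂RingHom (ι.comp PowerSeries.C) (ι PowerSeries.X) =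
      ι.comp Polynomial.coeToPowerSeries.ringHom := by
    apply Polynomial.ringHom_ext
    · intro a
      simp
    · simp
  exact DFunLike.congr_fun h p

theorem trans (hι : Function.Injective ι) (p : Polynomial Ω) (hp : p ≠ 0) :
    Polynomial.eval₂ (ι.comp PowerSeries.C) (ι PowerSeries.X) p ≠ 0 := by
  rw [eval₂_eq]
  intro h
  apply hp
  have h1 : (p : PowerSeries Ω) = 0 := hι (by rw [h, map_zero])
  exact Polynomial.coe_eq_zero_iff.1 h1

theorem iX_ne (hι : Function.Injective ι) : ι PowerSeries.X ≠ 0 := by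
  intro h
  exact PowerSeries.X_ne_zero (hι (by rw [h, map_zero]))

theorem transInv (hι : Function.Injective ι) (p : Polynomial Ω) (hp : p ≠ 0) :
    Polynomial.eval₂ (ι.comp PowerSeries.C) (ι PowerSeries.X)⁻¹ p ≠ 0 := by
  have hX := iX_ne ι hι
  let _ : Invertible (ι PowerSeries.X)⁻¹ := invertibleOfNonzero (inv_ne_zero hX)
  intro h
  have h1 := (Polynomial.eval₂_reverse_eq_zero_iff (ι.comp PowerSeries.C)
    ((ι PowerSeries.X)⁻¹) p).2 h
  have h2 : ⅟((ι PowerSeries.X)⁻¹) = ι PowerSeries.X := by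
    rw [invOf_eq_inv, inv_inv]
  rw [h2] at h1
  exact trans ι hι p.reverse (by simpa using hp) h1

end Trans

section Kry

/-- the Krylov matrix -/
noncomputable def kry {S : Type*} [CommRing S] {d : ℕ} (A : Matrix (Fin d) (Fin d) S)
    (w : Fin d → S) : Matrix (Fin d) (Fin d) S :=
  Matrix.of fun i j => ((A ^ (j : ℕ)) *ᵥ w) i

theorem kry_map {S S' : Type*} [CommRing S] [CommRing S'] (φ : S →+* S') {d : ℕ}
    (A : Matrix (Fin d) (Fin d) S) (w : Fin d → S) :
    (kry A w).map φ = kry (A.map φ) (φ ∘ w) := by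
  ext i j
  have h1 : (A.map φ) ^ (j : ℕ) = (A ^ (j : ℕ)).map φ := by
    have := map_pow φ.mapMatrix A (j : ℕ)
    simpa using this.symm
  simp only [kry, Matrix.map_apply, Matrix.of_apply, h1]
  rw [RingHom.map_mulVec]

theorem kry_det_map {S S' : Type*} [CommRing S] [CommRing S'] (φ : S →+* S') {d : ℕ}
    (A : Matrix (Fin d) (Fin d) S) (w : Fin d → S) :
    φ (kry A w).det = (kry (A.map φ) (φ ∘ w)).det := by
  rw [RingHom.map_det, ← kry_map]
  rfl

theorem kry_mulVec {S : Type*} [CommRing S] {d : ℕ} (A : Matrix (Fin d) (Fin d) S)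
    (w : Fin d → S) (c : Fin d → S) :
    kry A w *ᵥ c = (Polynomial.aeval A (∑ j : Fin d, Polynomial.C (c j) *
      Polynomial.X ^ (j : ℕ))) *ᵥ w := by
  rw [map_sum, Matrix.sum_mulVec]
  funext i
  simp only [Matrix.mulVec, dotProduct, Finset.sum_apply, kry, Matrix.of_apply, map_mul,
    Polynomial.aeval_C, map_pow, Polynomial.aeval_X]
  refine Finset.sum_congr rfl fun j _ => ?_
  rw [Finset.sum_mul]
  refine Finset.sum_congr rfl fun k _ => ?_
  rw [Algebra.algebraMap_eq_smul_one, smul_mul_assoc, one_mul, Matrix.smul_apply, smul_eq_mul]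
  ring

theorem aeval_mulVec {S : Type*} [CommRing S] [Nontrivial S] {d : ℕ}
    (A : Matrix (Fin d) (Fin d) S) (w : Fin d → S) (q : Polynomial S) :
    ∃ c : Fin d → S, (Polynomial.aeval A q) *ᵥ w = kry A w *ᵥ c := by
  refine ⟨fun j => (q %ₘ A.charpoly).coeff j, ?_⟩
  rw [kry_mulVec, Matrix.aeval_eq_aeval_mod_charpoly]
  congr 2
  rcases Nat.eq_zero_or_pos d with hd | hd
  · subst hd
    have : A.charpoly = 1 := by
      rw [Matrix.charpoly]
      exact Matrix.det_isEmpty
    rw [this]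
    simp
  · have hm := A.charpoly_monic
    have hdeg : (q %ₘ A.charpoly).natDegree < d := by
      have := Polynomial.natDegree_modByMonic_lt q hm (by
        intro h1
        have h2 := A.charpoly_natDegree_eq_dim
        rw [h1] at h2
        simp at h2
        omega)
      rwa [A.charpoly_natDegree_eq_dim, Fintype.card_fin] at this
    conv_lhs => rw [Polynomial.as_sum_range' _ d hdeg]
    rw [← Fin.sum_univ_eq_sum_range (fun j => Polynomial.monomial j
      ((q %ₘ A.charpoly).coeff j))]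
    refine Finset.sum_congr rfl fun j _ => ?_
    rw [Polynomial.C_mul_X_pow_eq_monomial]

theorem cyc_iff {K : Type*} [Field K] {d : ℕ} (A : Matrix (Fin d) (Fin d) K) (w : Fin d → K) :
    (∀ v : Fin d → K, ∃ q : Polynomial K, v = (Polynomial.aeval A q) *ᵥ w) ↔
    (kry A w).det ≠ 0 := by
  constructor
  · intro h
    have hs : Function.Surjective (kry A w).mulVec := by
      intro v
      obtain ⟨q, hq⟩ := h v
      obtain ⟨c, hc⟩ := aeval_mulVec A w q
      exact ⟨c, by rw [hq, hc]⟩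
    have h1 := (Matrix.mulVec_surjective_iff_isUnit).1 hs
    rw [Matrix.isUnit_iff_isUnit_det] at h1
    exact h1.ne_zero
  · intro h v
    refine ⟨∑ j : Fin d, Polynomial.C (((kry A w)⁻¹ *ᵥ v) j) * Polynomial.X ^ (j : ℕ), ?_⟩
    rw [← kry_mulVec A w ((kry A w)⁻¹ *ᵥ v), Matrix.mulVec_mulVec, Matrix.mul_nonsing_inv,
        Matrix.one_mulVec]
    exact isUnit_iff_ne_zero.2 h

end Kry

theorem gen : T_GEN.{u} := by
  intro Ω Ω' _ _ ι hι d Y R w hR v
  set t' := ι PowerSeries.X with ht'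
  set κ' : Ω →+* Ω' := ι.comp PowerSeries.C with hκ'
  have ht0 : t' ≠ 0 := iX_ne ι hι
  let A : Matrix (Fin d) (Fin d) (Polynomial Ω) :=
    (Polynomial.X : Polynomial Ω) • Y.map Polynomial.C + R.map Polynomial.C
  have hδ : (kry A (Polynomial.C ∘ w)).det ≠ 0 := by
    intro h0
    have h1 := congrArg (Polynomial.evalRingHom (0 : Ω)) h0
    rw [kry_det_map, map_zero] at h1
    have h2 : A.map (Polynomial.evalRingHom (0 : Ω)) = R := by
      ext i j
      simp [A]
    have h3 : ⇑(Polynomial.evalRingHom (0 : Ω)) ∘ (⇑Polynomial.C ∘ w) = w := by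
      funext i
      simp
    rw [h2, h3] at h1
    exact (cyc_iff R w).1 hR h1
  have h1 := transInv ι hι _ hδ
  rw [← Polynomial.coe_eval₂RingHom, kry_det_map] at h1
  have h2 : A.map (Polynomial.eval₂RingHom (ι.comp PowerSeries.C) (ι PowerSeries.X)⁻¹) =
      t'⁻¹ • Y.map κ' + R.map κ' := by
    ext i j
    simp only [A, ht', hκ', Matrix.map_apply, Matrix.add_apply, Matrix.smul_apply, smul_eq_mul,
      Polynomial.coe_eval₂RingHom]
    rw [Polynomial.eval₂_add, Polynomial.eval₂_C, ← Polynomial.coe_eval₂RingHom, map_mul,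
      Polynomial.coe_eval₂RingHom, Polynomial.eval₂_C, Polynomial.eval₂_X]
  have h3 : ⇑(Polynomial.eval₂RingHom (ι.comp PowerSeries.C) (ι PowerSeries.X)⁻¹) ∘
      (⇑Polynomial.C ∘ w) = κ' ∘ w := by
    funext i
    simp [hκ']
  rw [h2, h3, ← cyc_iff] at h1
  obtain ⟨q, hq⟩ := h1 v
  refine ⟨q.comp (Polynomial.C t'⁻¹ * Polynomial.X), ?_⟩
  rw [hq, Polynomial.aeval_comp]
  congr 2
  simp only [map_mul, Polynomial.aeval_C, Polynomial.aeval_X]
  rw [Algebra.algebraMap_eq_smul_one, smul_mul_assoc, one_mul, smul_add, smul_smul,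
    inv_mul_cancel₀ ht0, one_smul]

end Pool.Agent.H56.HZ.GEN
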