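import Pool.Agent.H56.HZ.MTc

/-!
# MT: finite local algebras at smooth points are smoothable (Motzkin-Taussky, Fogarty)
-/

namespace Pool.Agent.H56.HZ.MT

open Matrix Pool.Agent.H12.HS

universe u

section Field
variable (K : Type u) [Field K]

/-- an algebraically closed field containing `K[[t]]` -/
abbrev Big : Type u := AlgebraicClosure (FractionRing (PowerSeries K))

/-- the embedding -/
noncomputable def emb : PowerSeries K →+* Big K :=
  (algebraMap (FractionRing (PowerSeries K)) (Big K)).comp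
    (algebraMap (PowerSeries K) (FractionRing (PowerSeries K)))

theorem emb_inj : Function.Injective (emb K) := by
  have h1 : Function.Injective (algebraMap (FractionRing (PowerSeries K)) (Big K)) :=
    (algebraMap (FractionRing (PowerSeries K)) (Big K)).injective
  exact h1.comp (IsFractionRing.injective (PowerSeries K) (FractionRing (PowerSeries K)))

end Field

section Steps
variable {k K : Type u} [Field k] [Field K]

/-- the perturbation `A + t B` -/
noncomputable def pert {d : ℕ} (A B : Matrix (Fin d) (Fin d) K) :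
    Matrix (Fin d) (Fin d) (PowerSeries K) :=
  A.map PowerSeries.C + (PowerSeries.X : PowerSeries K) • B.map PowerSeries.C

theorem pert_cc {d : ℕ} (A B : Matrix (Fin d) (Fin d) K) :
    (pert A B).map (PowerSeries.constantCoeff (R := K)) = A := by
  ext i j
  simp [pert]

theorem pert_map {d : ℕ} {K' : Type u} [Field K'] (ι : PowerSeries K →+* K')
    (A B : Matrix (Fin d) (Fin d) K) : (pert A B).map ι =
    A.map (ι.comp PowerSeries.C) + ι PowerSeries.X • B.map (ι.comp PowerSeries.C) := by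
  ext i j
  simp [pert]

theorem step2 (hRED : T_RED.{u}) (hDIST : T_DIST.{u}) (hCONV : T_CONV.{u}) (hHENS : T_HENS.{u})
    [IsAlgClosed k] [IsAlgClosed K] (Sh : Shape.{u}) (κ : k →+* K) (hN : (Sh.N : K) ≠ 0)
    {W : Type u} [CommRing W] [Algebra K W] {d : ℕ} (b : Module.Basis (Fin d) K W)
    (p : Fin 3 → W) (hp : p 2 ^ 2 = p 0 ^ 4 + p 1 ^ 4)
    (hadj : Algebra.adjoin K {p (Sh.σ 1)} = ⊤) (hu : IsUnit (p (Sh.σ 2))) :
    SmCfg κ (cfgOf b p) := by
  obtain ⟨π, hπ⟩ : ∃ q : Polynomial K, Polynomial.aeval (p (Sh.σ 1)) q = p (Sh.σ 0) := by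
    have hx : p (Sh.σ 0) ∈ Algebra.adjoin K {p (Sh.σ 1)} := by rw [hadj]; trivial
    rw [Algebra.adjoin_singleton_eq_range_aeval] at hx
    exact hx
  obtain ⟨D, hD⟩ := hDIST K d (Algebra.leftMulMatrix b (p (Sh.σ 1)))
  set Y := pert (Algebra.leftMulMatrix b (p (Sh.σ 1))) D with hY
  set X : Matrix (Fin d) (Fin d) (PowerSeries K) :=
    Polynomial.aeval Y (π.map PowerSeries.C) with hX
  have hXY : X * Y = Y * X := by
    have h1 : Y = Polynomial.aeval Y (Polynomial.X : Polynomial (PowerSeries K)) :=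
      (Polynomial.aeval_X Y).symm
    calc X * Y = Polynomial.aeval Y (π.map PowerSeries.C) *
          Polynomial.aeval Y (Polynomial.X : Polynomial (PowerSeries K)) := by
            rw [Polynomial.aeval_X]
      _ = Y * X := by
          rw [← map_mul, mul_comm, map_mul, Polynomial.aeval_X]
  have hYc : Y.map (PowerSeries.constantCoeff (R := K)) =
      Algebra.leftMulMatrix b (p (Sh.σ 1)) := pert_cc _ _
  have hXc : X.map (PowerSeries.constantCoeff (R := K)) =
      Algebra.leftMulMatrix b (p (Sh.σ 0)) := by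
    rw [hX, aeval_map, hYc, Polynomial.map_map]
    have h1 : (PowerSeries.constantCoeff (R := K)).comp PowerSeries.C = RingHom.id K := by
      ext a
      simp
    rw [h1, Polynomial.map_id, Polynomial.aeval_algHom_apply, hπ]
  have hadj2 : Algebra.adjoin K {p (Sh.σ 0), p (Sh.σ 1)} = ⊤ := by
    rw [eq_top_iff, ← hadj]
    exact Algebra.adjoin_mono (by simp)
  obtain ⟨W', _, _, b', p', hp', hadj', hu', hX', hY', hS⟩ :=
    family hCONV hHENS Sh κ hN b p hp hadj2 hu X Y hXY hXc hYc (Big K) (emb K) (emb_inj K)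
  apply hS
  apply hRED k (Big K) _ d
  obtain ⟨μ, U, V, hμ, hUV, hdec⟩ := hD (Big K) (emb K) (emb_inj K)
  rw [← pert_map, ← hY] at hdec
  have h5 : p' (Sh.σ 0) = Polynomial.aeval (p' (Sh.σ 1))
      ((π.map PowerSeries.C).map (emb K)) := by
    apply Algebra.leftMulMatrix_injective b'
    rw [hX', ← Polynomial.aeval_algHom_apply, hY', hX, aeval_map]
  refine isRed_of_diag b' p' hp' (Sh.σ 1) ?_ μ hμ U V hUV (hY'.trans hdec)
  rw [eq_top_iff, ← hadj']
  apply Algebra.adjoin_le
  intro x hx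
  rcases hx with rfl | rfl
  · rw [Algebra.adjoin_singleton_eq_range_aeval]
    exact ⟨_, h5.symm⟩
  · exact Algebra.subset_adjoin rfl

theorem step1 (hRED : T_RED.{u}) (hNOND : T_NOND.{u}) (hGEN : T_GEN.{u}) (hDIST : T_DIST.{u})
    (hCONV : T_CONV.{u}) (hHENS : T_HENS.{u})
    [IsAlgClosed k] [IsAlgClosed K] (Sh : Shape.{u}) (κ : k →+* K) (hN : (Sh.N : K) ≠ 0)
    {W : Type u} [CommRing W] [Algebra K W] {d : ℕ} (b : Module.Basis (Fin d) K W)
    (p : Fin 3 → W) (hp : p 2 ^ 2 = p 0 ^ 4 + p 1 ^ 4)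
    (hadj : Algebra.adjoin K {p (Sh.σ 0), p (Sh.σ 1)} = ⊤) (hu : IsUnit (p (Sh.σ 2))) :
    SmCfg κ (cfgOf b p) := by
  obtain ⟨R0, w, hcomm, hcyc⟩ := hNOND K d (Algebra.leftMulMatrix b (p (Sh.σ 0)))
  set S := Algebra.leftMulMatrix b (p (Sh.σ 0)) with hS0
  set S' := Algebra.leftMulMatrix b (p (Sh.σ 1)) with hS1
  set Y := pert S' R0 with hY
  set X : Matrix (Fin d) (Fin d) (PowerSeries K) := S.map PowerSeries.C with hX
  have hSS : S * S' = S' * S := by
    rw [hS0, hS1, ← map_mul, mul_comm, map_mul]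
  have hXY : X * Y = Y * X := by
    have h1 : S.map (PowerSeries.C (R := K)) * S'.map (PowerSeries.C (R := K)) =
        S'.map (PowerSeries.C (R := K)) * S.map (PowerSeries.C (R := K)) := by
      rw [← Matrix.map_mul, ← Matrix.map_mul, hSS]
    have h2 : S.map (PowerSeries.C (R := K)) * R0.map (PowerSeries.C (R := K)) =
        R0.map (PowerSeries.C (R := K)) * S.map (PowerSeries.C (R := K)) := by
      rw [← Matrix.map_mul, ← Matrix.map_mul, hcomm]
    rw [hX, hY, pert, Matrix.mul_add, Matrix.add_mul, h1, Matrix.mul_smul, Matrix.smul_mul, h2]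
  have hYc : Y.map (PowerSeries.constantCoeff (R := K)) = S' := pert_cc _ _
  have hXc : X.map (PowerSeries.constantCoeff (R := K)) = S := by
    ext i j
    simp [hX]
  obtain ⟨W', _, _, b', p', hp', hadj', hu', hX', hY', hS⟩ :=
    family hCONV hHENS Sh κ hN b p hp hadj hu X Y hXY hXc hYc (Big K) (emb K) (emb_inj K)
  apply hS
  have hcyc' := hGEN K (Big K) (emb K) (emb_inj K) d S' R0 w hcyc
  rw [← pert_map, ← hY, ← hY'] at hcyc'
  set w' : Fin d → Big K := (emb K).comp PowerSeries.C ∘ w with hw'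
  refine step2 hRED hDIST hCONV hHENS Sh _ ?_ b' p' hp' ?_ hu'
  · intro h
    apply hN
    apply ((emb K).comp PowerSeries.C).injective
    rw [map_natCast, map_zero, h]
  · rw [eq_top_iff]
    rintro x -
    rw [Algebra.adjoin_singleton_eq_range_aeval]
    obtain ⟨q, hq⟩ := hcyc' (Algebra.leftMulMatrix b' x *ᵥ w')
    refine ⟨q, ?_⟩
    apply Algebra.leftMulMatrix_injective b'
    have h1 : ∀ v : Fin d → Big K, Algebra.leftMulMatrix b' (Polynomial.aeval (p' (Sh.σ 1)) q) *ᵥ v =
        Algebra.leftMulMatrix b' x *ᵥ v := by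
      intro v
      obtain ⟨q', hq'⟩ := hcyc' v
      rw [hq', Polynomial.aeval_algHom_apply]
      rw [Polynomial.aeval_algHom_apply] at hq
      set A1 := Polynomial.aeval (p' (Sh.σ 1)) q with hA1
      set A2 := Polynomial.aeval (p' (Sh.σ 1)) q' with hA2
      have e1 : Algebra.leftMulMatrix b' A1 * Algebra.leftMulMatrix b' A2 =
          Algebra.leftMulMatrix b' A2 * Algebra.leftMulMatrix b' A1 := by
        rw [← map_mul, mul_comm, map_mul]
      have e2 : Algebra.leftMulMatrix b' x * Algebra.leftMulMatrix b' A2 =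
          Algebra.leftMulMatrix b' A2 * Algebra.leftMulMatrix b' x := by
        rw [← map_mul, mul_comm, map_mul]
      rw [Matrix.mulVec_mulVec, Matrix.mulVec_mulVec, e1, e2,
        ← Matrix.mulVec_mulVec, ← Matrix.mulVec_mulVec, hq]
    exact Matrix.ext_of_mulVec_single fun i => h1 _

end Steps

/-- case A: `r = z`, `(s, s') = (x, y)` -/
def shapeA : Shape.{u} where
  σ := Equiv.refl _
  N := 2
  h := fun R _ a b => a ^ 4 + b ^ 4
  nat := by intro R R' _ _ φ a b; simp
  eqn := by intro R _ p; simp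

/-- the cyclic permutation -/
def cyc3 : Equiv.Perm (Fin 3) where
  toFun := ![1, 2, 0]
  invFun := ![2, 0, 1]
  left_inv := by intro i; fin_cases i <;> rfl
  right_inv := by intro i; fin_cases i <;> rfl

/-- case B: `r = x`, `(s, s') = (y, z)` -/
def shapeB : Shape.{u} where
  σ := cyc3
  N := 4
  h := fun R _ a b => b ^ 2 - a ^ 4
  nat := by intro R R' _ _ φ a b; simp
  eqn := by
    intro R _ p
    have h0 : cyc3 0 = 1 := rfl
    have h1 : cyc3 1 = 2 := rfl
    have h2 : cyc3 2 = 0 := rfl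
    rw [h0, h1, h2]
    constructor
    · intro h
      rw [h]
      ring
    · intro h
      rw [h]
      ring

theorem mt (hRED : T_RED.{u}) (hNOND : T_NOND.{u}) (hGEN : T_GEN.{u}) (hDIST : T_DIST.{u})
    (hCONV : T_CONV.{u}) (hHENS : T_HENS.{u}) (hROOT : T_ROOT.{u}) : T_MT.{u} := by
  intro k K _ _ _ _ _ κ W _ _ _ p hadj hp q hq hnil
  rcases subsingleton_or_nontrivial W with hW | hW
  · exact SmAt.of_subsingleton κ W p
  have hch : CharZero K := charZero_of_hom κ
  have hqs : q 2 ^ 2 = q 0 ^ 4 + q 1 ^ 4 := by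
    have h1 : ∀ (n : ℕ) (i : Fin 3), IsNilpotent (p i ^ n - algebraMap K W (q i ^ n)) := by
      intro n i
      rw [map_pow]
      obtain ⟨c, hc⟩ := sub_dvd_pow_sub_pow (p i) (algebraMap K W (q i)) n
      rw [hc]
      exact (Commute.all _ _).isNilpotent_mul_right (hnil i)
    have h2 : IsNilpotent (algebraMap K W (q 2 ^ 2 - (q 0 ^ 4 + q 1 ^ 4))) := by
      have h3 : algebraMap K W (q 2 ^ 2 - (q 0 ^ 4 + q 1 ^ 4)) =
          ((p 0 ^ 4 - algebraMap K W (q 0 ^ 4)) + (p 1 ^ 4 - algebraMap K W (q 1 ^ 4))) -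
          (p 2 ^ 2 - algebraMap K W (q 2 ^ 2)) := by
        rw [hp, map_sub, map_add]
        ring
      rw [h3]
      exact (Commute.all _ _).isNilpotent_sub ((Commute.all _ _).isNilpotent_add (h1 4 0) (h1 4 1))
        (h1 2 2)
    obtain ⟨n, hn⟩ := h2
    rw [← map_pow] at hn
    have h4 : (q 2 ^ 2 - (q 0 ^ 4 + q 1 ^ 4)) ^ n = 0 :=
      (algebraMap K W).injective (by rw [hn, map_zero])
    exact sub_eq_zero.1 (eq_zero_of_pow_eq_zero h4)
  have hunit : ∀ i, q i ≠ 0 → IsUnit (p i) := by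
    intro i hi
    have h1 : IsUnit (algebraMap K W (q i)) := (isUnit_iff_ne_zero.2 hi).map _
    have h2 := (hnil i).isUnit_add_left_of_commute h1 (Commute.all _ _)
    rwa [add_sub_cancel] at h2
  intro d b
  have key : ∀ Sh : Shape.{u}, (Sh.N : K) ≠ 0 → q (Sh.σ 2) ≠ 0 → SmCfg κ (cfgOf b p) := by
    intro Sh hN hq2
    have hr : p (Sh.σ 2) ∈ Algebra.adjoin K {p (Sh.σ 0), p (Sh.σ 1)} := by
      refine hROOT K W _ Sh.N hN (p (Sh.σ 2)) (q (Sh.σ 2)) hq2 (hnil _) ?_
      rw [(Sh.eqn W p).1 hp]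
      have h1 := Sh.nat (Algebra.adjoin K {p (Sh.σ 0), p (Sh.σ 1)}) W
        (Algebra.adjoin K {p (Sh.σ 0), p (Sh.σ 1)}).val.toRingHom
        ⟨p (Sh.σ 0), Algebra.subset_adjoin (by simp)⟩ ⟨p (Sh.σ 1), Algebra.subset_adjoin (by simp)⟩
      change ((Sh.h _ _ _ : Algebra.adjoin K {p (Sh.σ 0), p (Sh.σ 1)}) : W) =
        Sh.h W (p (Sh.σ 0)) (p (Sh.σ 1)) at h1
      rw [← h1]
      exact SetLike.coe_mem _
    refine step1 hRED hNOND hGEN hDIST hCONV hHENS Sh κ hN b p hp ?_ (hunit _ hq2)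
    rw [eq_top_iff, ← hadj]
    apply Algebra.adjoin_le
    rintro x ⟨i, rfl⟩
    obtain ⟨j, rfl⟩ := Sh.σ.surjective i
    fin_cases j
    · exact Algebra.subset_adjoin (by simp)
    · exact Algebra.subset_adjoin (by simp)
    · exact hr
  by_cases h2 : q 2 = 0
  · refine key shapeB ?_ ?_
    · change ((4 : ℕ) : K) ≠ 0
      norm_num
    · change q 0 ≠ 0
      intro h0
      rw [h2, h0] at hqs
      rcases hq with h | h
      · exact h h0
      · apply h
        have h5 : q 1 ^ 4 = 0 := by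
          rw [zero_pow (by norm_num), zero_pow (by norm_num), zero_add] at hqs
          exact hqs.symm
        exact pow_eq_zero_iff (by norm_num) |>.1 h5
  · refine key shapeA ?_ h2
    change ((2 : ℕ) : K) ≠ 0
    norm_num

end Pool.Agent.H56.HZ.MT
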