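import Pool.Agent.H12.HS.Targets
import Pool.Agent.H12.HS.Basic

/-!
# MT, part 1: lifting finite algebras to `K[[t]]`
-/

namespace Pool.Agent.H56.HZ.MT

open Matrix Pool.Agent.H12.HS

universe u

section Red
variable {K : Type u} [Field K] {W Wt : Type u} [CommRing W] [CommRing Wt] [Algebra K W]
  [Algebra (PowerSeries K) Wt] {d : ℕ} (b : Module.Basis (Fin d) K W)
  (bt : Module.Basis (Fin d) (PowerSeries K) Wt)

/-- the matrix of an element modulo `t` -/
noncomputable def rho : Wt →+* Matrix (Fin d) (Fin d) K :=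
  (PowerSeries.constantCoeff (R := K)).mapMatrix.comp
    (Algebra.leftMulMatrix bt : Wt →+* Matrix (Fin d) (Fin d) (PowerSeries K))

theorem rho_apply (x : Wt) :
    rho bt x = (Algebra.leftMulMatrix bt x).map (PowerSeries.constantCoeff (R := K)) := rfl

theorem rho_algebraMap (a : PowerSeries K) :
    rho bt (algebraMap (PowerSeries K) Wt a) =
      Algebra.leftMulMatrix b (algebraMap K W (PowerSeries.constantCoeff a)) := by
  rw [rho_apply, AlgHom.commutes, AlgHom.commutes]
  ext i j
  rw [Matrix.map_apply, Matrix.algebraMap_matrix_apply, Matrix.algebraMap_matrix_apply]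
  split_ifs <;> simp

theorem exists_red (s s' : W) (st st' : Wt) (h : rho bt st = Algebra.leftMulMatrix b s)
    (h' : rho bt st' = Algebra.leftMulMatrix b s')
    (hadj : Algebra.adjoin (PowerSeries K) {st, st'} = ⊤) (x : Wt) :
    ∃ y : W, Algebra.leftMulMatrix b y = rho bt x := by
  have hx : x ∈ Algebra.adjoin (PowerSeries K) {st, st'} := by rw [hadj]; trivial
  induction hx using Algebra.adjoin_induction with
  | mem x hx =>
    rcases hx with rfl | rfl
    · exact ⟨s, h.symm⟩
    · exact ⟨s', h'.symm⟩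
  | algebraMap a => exact ⟨_, (rho_algebraMap b bt a).symm⟩
  | add x y _ _ hx hy =>
    obtain ⟨x', hx'⟩ := hx
    obtain ⟨y', hy'⟩ := hy
    exact ⟨x' + y', by rw [map_add, map_add, hx', hy']⟩
  | mul x y _ _ hx hy =>
    obtain ⟨x', hx'⟩ := hx
    obtain ⟨y', hy'⟩ := hy
    exact ⟨x' * y', by rw [map_mul, map_mul, hx', hy']⟩

theorem exists_lift (s s' : W) (st st' : Wt) (h : rho bt st = Algebra.leftMulMatrix b s)
    (h' : rho bt st' = Algebra.leftMulMatrix b s')
    (hadj : Algebra.adjoin K {s, s'} = ⊤) (y : W) :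
    ∃ x : Wt, rho bt x = Algebra.leftMulMatrix b y := by
  have hy : y ∈ Algebra.adjoin K {s, s'} := by rw [hadj]; trivial
  induction hy using Algebra.adjoin_induction with
  | mem x hx =>
    rcases hx with rfl | rfl
    · exact ⟨st, h⟩
    · exact ⟨st', h'⟩
  | algebraMap a =>
    refine ⟨algebraMap (PowerSeries K) Wt (PowerSeries.C a), ?_⟩
    rw [rho_algebraMap b bt]
    simp
  | add x y _ _ hx hy =>
    obtain ⟨x', hx'⟩ := hx
    obtain ⟨y', hy'⟩ := hy
    exact ⟨x' + y', by rw [map_add, map_add, hx', hy']⟩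
  | mul x y _ _ hx hy =>
    obtain ⟨x', hx'⟩ := hx
    obtain ⟨y', hy'⟩ := hy
    exact ⟨x' * y', by rw [map_mul, map_mul, hx', hy']⟩

/-- the reduction -/
theorem exists_red_hom (s s' : W) (st st' : Wt) (h : rho bt st = Algebra.leftMulMatrix b s)
    (h' : rho bt st' = Algebra.leftMulMatrix b s')
    (hadj : Algebra.adjoin (PowerSeries K) {st, st'} = ⊤) :
    ∃ red : Wt →+* W, ∀ x, Algebra.leftMulMatrix b (red x) = rho bt x := by
  have hex := exists_red b bt s s' st st' h h' hadj
  have hinj := Algebra.leftMulMatrix_injective b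
  refine ⟨{ toFun := fun x => Classical.choose (hex x)
            map_one' := ?_
            map_mul' := ?_
            map_zero' := ?_
            map_add' := ?_ }, fun x => Classical.choose_spec (hex x)⟩
  · apply hinj
    rw [Classical.choose_spec (hex 1), map_one, map_one]
  · intro x y
    apply hinj
    rw [Classical.choose_spec (hex (x * y)), map_mul, map_mul, Classical.choose_spec (hex x),
      Classical.choose_spec (hex y)]
  · apply hinj
    rw [Classical.choose_spec (hex 0), map_zero, map_zero]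
  · intro x y
    apply hinj
    rw [Classical.choose_spec (hex (x + y)), map_add, map_add, Classical.choose_spec (hex x),
      Classical.choose_spec (hex y)]

theorem mem_span_of_rho (x : Wt) (hx : rho bt x = 0) :
    x ∈ Ideal.span {algebraMap (PowerSeries K) Wt PowerSeries.X} := by
  have h1 : ∀ i, (PowerSeries.X : PowerSeries K) ∣ bt.repr x i := by
    intro i
    rw [PowerSeries.X_dvd_iff]
    have h2 := congrFun (Algebra.leftMulMatrix_mulVec_repr bt x 1) i
    rw [mul_one] at h2
    rw [← h2, Matrix.mulVec, dotProduct, map_sum]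
    refine Finset.sum_eq_zero fun j _ => ?_
    have h3 : PowerSeries.constantCoeff (Algebra.leftMulMatrix bt x i j) = 0 := by
      have := congrFun (congrFun hx i) j
      exact this
    rw [map_mul, h3, zero_mul]
  choose c hc using h1
  rw [Ideal.mem_span_singleton]
  refine ⟨∑ i, c i • bt i, ?_⟩
  rw [Finset.mul_sum]
  conv_lhs => rw [← bt.sum_repr x]
  refine Finset.sum_congr rfl fun i _ => ?_
  rw [hc i, Algebra.mul_smul_comm, ← Algebra.smul_def, smul_smul, mul_comm]

theorem isUnit_of_rho (x : Wt) (hx : IsUnit (rho bt x)) : IsUnit x := by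
  have h1 : IsUnit (Algebra.leftMulMatrix bt x).det := by
    rw [PowerSeries.isUnit_iff_constantCoeff]
    have h2 : PowerSeries.constantCoeff (Algebra.leftMulMatrix bt x).det = (rho bt x).det := by
      rw [RingHom.map_det]
      rfl
    rw [h2]
    exact (Matrix.isUnit_iff_isUnit_det _).1 hx
  refine IsUnit.of_mul_eq_one (bt.equivFun.symm ((Algebra.leftMulMatrix bt x)⁻¹ *ᵥ bt.repr 1)) ?_
  apply bt.equivFun.injective
  have h2 := Algebra.leftMulMatrix_mulVec_repr bt x
    (bt.equivFun.symm ((Algebra.leftMulMatrix bt x)⁻¹ *ᵥ bt.repr 1))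
  have h3 : ⇑(bt.repr (bt.equivFun.symm ((Algebra.leftMulMatrix bt x)⁻¹ *ᵥ bt.repr 1))) =
      (Algebra.leftMulMatrix bt x)⁻¹ *ᵥ bt.repr 1 := by
    have := bt.equivFun.apply_symm_apply ((Algebra.leftMulMatrix bt x)⁻¹ *ᵥ bt.repr 1)
    exact this
  rw [h3, Matrix.mulVec_mulVec, Matrix.mul_nonsing_inv _ h1, Matrix.one_mulVec] at h2
  exact h2.symm

end Red

section Cyc
variable {K : Type u} [Field K] {W : Type u} [CommRing W] [Algebra K W] {d : ℕ}
  (b : Module.Basis (Fin d) K W)

theorem cyc_lift (s s' : W) (X Y : Matrix (Fin d) (Fin d) (PowerSeries K))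
    (hX : X.map (PowerSeries.constantCoeff (R := K)) = Algebra.leftMulMatrix b s)
    (hY : Y.map (PowerSeries.constantCoeff (R := K)) = Algebra.leftMulMatrix b s')
    (hadj : Algebra.adjoin K {s, s'} = ⊤) (w : Fin d → PowerSeries K) :
    ∃ M ∈ Algebra.adjoin (PowerSeries K) {X, Y}, w = M *ᵥ (PowerSeries.C ∘ b.repr 1) := by
  let rd : Matrix (Fin d) (Fin d) (PowerSeries K) →+* Matrix (Fin d) (Fin d) K :=
    (PowerSeries.constantCoeff (R := K)).mapMatrix
  have h1 : ∀ y : W, ∃ M ∈ Algebra.adjoin (PowerSeries K) {X, Y},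
      rd M = Algebra.leftMulMatrix b y := by
    intro y
    have hy : y ∈ Algebra.adjoin K {s, s'} := by rw [hadj]; trivial
    induction hy using Algebra.adjoin_induction with
    | mem x hx =>
      rcases hx with rfl | rfl
      · exact ⟨X, Algebra.subset_adjoin (by simp), hX⟩
      · exact ⟨Y, Algebra.subset_adjoin (by simp), hY⟩
    | algebraMap a =>
      refine ⟨algebraMap (PowerSeries K) _ (PowerSeries.C a), Subalgebra.algebraMap_mem _ _, ?_⟩
      rw [AlgHom.commutes]
      ext i j
      have h3 : rd (algebraMap (PowerSeries K) _ (PowerSeries.C a)) i j =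
          PowerSeries.constantCoeff ((algebraMap (PowerSeries K)
            (Matrix (Fin d) (Fin d) (PowerSeries K)) (PowerSeries.C a)) i j) := rfl
      rw [h3, Matrix.algebraMap_matrix_apply, Matrix.algebraMap_matrix_apply]
      split_ifs <;> simp
    | add x y _ _ hx hy =>
      obtain ⟨x', hx1, hx'⟩ := hx
      obtain ⟨y', hy1, hy'⟩ := hy
      exact ⟨x' + y', Subalgebra.add_mem _ hx1 hy1, by rw [map_add, map_add, hx', hy']⟩
    | mul x y _ _ hx hy =>
      obtain ⟨x', hx1, hx'⟩ := hx
      obtain ⟨y', hy1, hy'⟩ := hy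
      exact ⟨x' * y', Subalgebra.mul_mem _ hx1 hy1, by rw [map_mul, map_mul, hx', hy']⟩
  choose M hM hMr using fun j => h1 (b j)
  set v : Fin d → PowerSeries K := PowerSeries.C ∘ b.repr 1 with hv
  let Q : Matrix (Fin d) (Fin d) (PowerSeries K) := Matrix.of fun i j => (M j *ᵥ v) i
  have hQ : rd Q = 1 := by
    ext i j
    change PowerSeries.constantCoeff ((M j *ᵥ v) i) = _
    rw [RingHom.map_mulVec]
    have h2 : (PowerSeries.constantCoeff (R := K)) ∘ v = b.repr 1 := by
      funext i
      simp [hv]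
    rw [h2]
    have h3 : (M j).map (PowerSeries.constantCoeff (R := K)) = Algebra.leftMulMatrix b (b j) :=
      hMr j
    rw [h3, Algebra.leftMulMatrix_mulVec_repr, mul_one, b.repr_self, Matrix.one_apply]
    rw [Finsupp.single_apply]
    simp only [eq_comm]
  have hdet : IsUnit Q.det := by
    rw [PowerSeries.isUnit_iff_constantCoeff]
    have h2 : PowerSeries.constantCoeff Q.det = (rd Q).det := by
      rw [RingHom.map_det]
    rw [h2, hQ, Matrix.det_one]
    exact isUnit_one
  refine ⟨∑ j, (Q⁻¹ *ᵥ w) j • M j, ?_, ?_⟩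
  · exact Subalgebra.sum_mem _ fun j _ => Subalgebra.smul_mem _ (hM j) _
  · have h2 : Q *ᵥ (Q⁻¹ *ᵥ w) = w := by
      rw [Matrix.mulVec_mulVec, Matrix.mul_nonsing_inv _ hdet, Matrix.one_mulVec]
    rw [← h2, Matrix.sum_mulVec]
    conv_rhs => rw [h2]
    funext i
    simp only [Matrix.mulVec, dotProduct, Finset.sum_apply, Q, Matrix.of_apply]
    refine Finset.sum_congr rfl fun j _ => ?_
    rw [Finset.sum_mul]
    refine Finset.sum_congr rfl fun l _ => ?_
    rw [Matrix.smul_apply, smul_eq_mul]
    ring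

end Cyc

end Pool.Agent.H56.HZ.MT
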