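import Pool.Agent.H56.HZ.MTa

/-!
# MT, part 2: the family
-/

namespace Pool.Agent.H56.HZ.MT

open Matrix Pool.Agent.H12.HS TensorProduct

universe u

/-- a way to write the surface as `r ^ N = h (s, s')` -/
structure Shape : Type (u + 1) where
  σ : Equiv.Perm (Fin 3)
  N : ℕ
  h : ∀ (R : Type u) [CommRing R], R → R → R
  nat : ∀ (R R' : Type u) [CommRing R] [CommRing R'] (φ : R →+* R') (a b : R),
    φ (h R a b) = h R' (φ a) (φ b)
  eqn : ∀ (R : Type u) [CommRing R] (p : Fin 3 → R), p 2 ^ 2 = p 0 ^ 4 + p 1 ^ 4 ↔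
    p (σ 2) ^ N = h R (p (σ 0)) (p (σ 1))

section BC
variable {R R' W : Type u} [CommRing R] [CommRing R'] [CommRing W] [Algebra R R'] [Algebra R W]
  {d : ℕ} (b : Module.Basis (Fin d) R W)

theorem lmm_bc (x : W) : Algebra.leftMulMatrix (Algebra.TensorProduct.basis R' b)
    ((1 : R') ⊗ₜ[R] x) = (Algebra.leftMulMatrix b x).map (algebraMap R R') := by
  ext i j
  rw [Algebra.leftMulMatrix_eq_repr_mul, Matrix.map_apply, Algebra.leftMulMatrix_eq_repr_mul,
    Algebra.TensorProduct.basis_apply, Algebra.TensorProduct.tmul_mul_tmul, mul_one,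
    Algebra.TensorProduct.basis_repr_tmul]
  simp [Algebra.algebraMap_eq_smul_one]

theorem repr_bc : ⇑((Algebra.TensorProduct.basis R' b).repr 1) =
    (algebraMap R R') ∘ ⇑(b.repr 1) := by
  funext i
  rw [Algebra.TensorProduct.one_def, Algebra.TensorProduct.basis_repr_tmul]
  simp [Algebra.algebraMap_eq_smul_one]

end BC

theorem family (hCONV : T_CONV.{u}) (hHENS : T_HENS.{u}) (Sh : Shape.{u})
    {k K : Type u} [Field k] [Field K] (κ : k →+* K) (hN : (Sh.N : K) ≠ 0)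
    {W : Type u} [CommRing W] [Algebra K W] {d : ℕ} (b : Module.Basis (Fin d) K W)
    (p : Fin 3 → W) (hp : p 2 ^ 2 = p 0 ^ 4 + p 1 ^ 4)
    (hadj : Algebra.adjoin K {p (Sh.σ 0), p (Sh.σ 1)} = ⊤) (hu : IsUnit (p (Sh.σ 2)))
    (X Y : Matrix (Fin d) (Fin d) (PowerSeries K)) (hXY : X * Y = Y * X)
    (hX : X.map (PowerSeries.constantCoeff (R := K)) = Algebra.leftMulMatrix b (p (Sh.σ 0)))
    (hY : Y.map (PowerSeries.constantCoeff (R := K)) = Algebra.leftMulMatrix b (p (Sh.σ 1)))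
    (K' : Type u) [Field K'] (ι : PowerSeries K →+* K') (hι : Function.Injective ι) :
    ∃ (W' : Type u) (_ : CommRing W') (_ : Algebra K' W') (b' : Module.Basis (Fin d) K' W')
      (p' : Fin 3 → W'),
      p' 2 ^ 2 = p' 0 ^ 4 + p' 1 ^ 4 ∧ Algebra.adjoin K' {p' (Sh.σ 0), p' (Sh.σ 1)} = ⊤ ∧
      IsUnit (p' (Sh.σ 2)) ∧
      Algebra.leftMulMatrix b' (p' (Sh.σ 0)) = X.map ι ∧
      Algebra.leftMulMatrix b' (p' (Sh.σ 1)) = Y.map ι ∧
      (SmCfg ((ι.comp PowerSeries.C).comp κ) (cfgOf b' p') → SmCfg κ (cfgOf b p)) := by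
  obtain ⟨Wt, _, _, bt, st, st', hst, hst', hv, hadjt⟩ :=
    hCONV (PowerSeries K) d X Y (PowerSeries.C ∘ b.repr 1) hXY
      (cyc_lift b _ _ X Y hX hY hadj)
  have h1 : rho bt st = Algebra.leftMulMatrix b (p (Sh.σ 0)) := by
    rw [rho_apply, hst, hX]
  have h2 : rho bt st' = Algebra.leftMulMatrix b (p (Sh.σ 1)) := by
    rw [rho_apply, hst', hY]
  obtain ⟨red, hred⟩ := exists_red_hom b bt _ _ st st' h1 h2 hadjt
  have hinj := Algebra.leftMulMatrix_injective b
  have h3 : red st = p (Sh.σ 0) := hinj (by rw [hred, h1])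
  have h4 : red st' = p (Sh.σ 1) := hinj (by rw [hred, h2])
  obtain ⟨r0, hr0⟩ := exists_lift b bt _ _ st st' h1 h2 hadj (p (Sh.σ 2))
  have h5 : red r0 = p (Sh.σ 2) := hinj (by rw [hred, hr0])
  have hr0u : IsUnit r0 := by
    apply isUnit_of_rho bt
    rw [hr0]
    exact hu.map (Algebra.leftMulMatrix b)
  obtain ⟨rt, hrt, hrt0⟩ := hHENS K Wt d bt Sh.N hN (Sh.h Wt st st') r0 hr0u (by
    apply mem_span_of_rho
    rw [← hred, map_sub, map_pow, Sh.nat, h3, h4, h5, (Sh.eqn W p).1 hp, sub_self, map_zero])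
  have h6 : red rt = p (Sh.σ 2) := by
    rw [← h5]
    rw [Ideal.mem_span_singleton] at hrt0
    obtain ⟨c, hc⟩ := hrt0
    have h7 : red (algebraMap (PowerSeries K) Wt PowerSeries.X) = 0 := by
      apply hinj
      rw [hred, rho_algebraMap b bt]
      simp
    have h8 := congrArg red hc
    rw [map_sub, map_mul, h7, zero_mul, sub_eq_zero] at h8
    exact h8
  let pt : Fin 3 → Wt := ![st, st', rt] ∘ Sh.σ.symm
  have hpt0 : pt (Sh.σ 0) = st := by simp [pt]
  have hpt1 : pt (Sh.σ 1) = st' := by simp [pt]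
  have hpt2 : pt (Sh.σ 2) = rt := by simp [pt]
  have hred' : ∀ i, red (pt i) = p i := by
    intro i
    obtain ⟨j, rfl⟩ := Sh.σ.surjective i
    fin_cases j
    · exact (congrArg red hpt0).trans h3
    · exact (congrArg red hpt1).trans h4
    · exact (congrArg red hpt2).trans h6
  have hsurf : pt 2 ^ 2 = pt 0 ^ 4 + pt 1 ^ 4 := by
    rw [Sh.eqn, hpt0, hpt1, hpt2, hrt]
  have hrtu : IsUnit rt := by
    apply isUnit_of_rho bt
    rw [← hred, h6]
    exact hu.map (Algebra.leftMulMatrix b)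
  have hcfg : (cfgOf bt pt).map (PowerSeries.constantCoeff (R := K)) = cfgOf b p := by
    apply Cfg.ext
    · funext a
      change (Algebra.leftMulMatrix bt (pt a)).map _ = Algebra.leftMulMatrix b (p a)
      rw [← hred', hred, rho_apply]
    · change PowerSeries.constantCoeff ∘ ⇑(bt.repr 1) = ⇑(b.repr 1)
      rw [hv]
      funext i
      simp
  let _ : Algebra (PowerSeries K) K' := ι.toAlgebra
  have hιa : algebraMap (PowerSeries K) K' = ι := rfl
  let p' : Fin 3 → K' ⊗[PowerSeries K] Wt := fun i => (1 : K') ⊗ₜ[PowerSeries K] pt i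
  have hp' : ∀ i, p' i = Algebra.TensorProduct.includeRight (R := PowerSeries K) (A := K')
      (pt i) := fun i => rfl
  refine ⟨K' ⊗[PowerSeries K] Wt, inferInstance, inferInstance,
    Algebra.TensorProduct.basis K' bt, p', ?_, ?_, ?_, ?_, ?_, ?_⟩
  · rw [hp', hp', hp', ← map_pow, ← map_pow, ← map_pow, ← map_add, hsurf]
  · have h9 := Algebra.TensorProduct.adjoin_one_tmul_image_eq_top (R := PowerSeries K) (A := K')
      ({st, st'} : Set Wt) hadjt
    rw [Set.image_pair] at h9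
    change Algebra.adjoin K' {(1 : K') ⊗ₜ[PowerSeries K] pt (Sh.σ 0),
      (1 : K') ⊗ₜ[PowerSeries K] pt (Sh.σ 1)} = ⊤
    rw [hpt0, hpt1]
    exact h9
  · rw [hp', hpt2]
    exact hrtu.map _
  · change Algebra.leftMulMatrix _ ((1 : K') ⊗ₜ[PowerSeries K] pt (Sh.σ 0)) = _
    rw [lmm_bc, hpt0, hst, hιa]
  · change Algebra.leftMulMatrix _ ((1 : K') ⊗ₜ[PowerSeries K] pt (Sh.σ 1)) = _
    rw [lmm_bc, hpt1, hst', hιa]
  · intro hS
    rw [← hcfg]
    apply SmCfg.spec κ ι hι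
    have h10 : (cfgOf bt pt).map ι = cfgOf (Algebra.TensorProduct.basis K' bt) p' := by
      apply Cfg.ext
      · funext a
        change (Algebra.leftMulMatrix bt (pt a)).map ι =
          Algebra.leftMulMatrix _ ((1 : K') ⊗ₜ[PowerSeries K] pt a)
        rw [lmm_bc, hιa]
      · change ι ∘ ⇑(bt.repr 1) = ⇑((Algebra.TensorProduct.basis K' bt).repr 1)
        rw [repr_bc, hιa]
    rw [h10]
    exact hS

end Pool.Agent.H56.HZ.MT
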