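import Pool.Agent.H56.HZ.MTb

/-!
# MT, part 3: the cyclic case
-/

namespace Pool.Agent.H56.HZ.MT

open Matrix Pool.Agent.H12.HS

universe u

section Diag
variable {K : Type u} [Field K] {d : ℕ}

theorem aeval_map {R S : Type u} [CommRing R] [CommRing S] (φ : R →+* S)
    (A : Matrix (Fin d) (Fin d) R) (q : Polynomial R) :
    (Polynomial.aeval A q).map φ = Polynomial.aeval (A.map φ) (q.map φ) := by
  have h := Polynomial.map_aeval_eq_aeval_map (φ := φ) (ψ := φ.mapMatrix (m := Fin d)) (by
    ext a i j
    simp only [RingHom.coe_comp, Function.comp_apply, RingHom.mapMatrix_apply, Matrix.map_apply,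
      Matrix.algebraMap_matrix_apply]
    split_ifs <;> simp) q A
  exact h

theorem aeval_diag (U V : Matrix (Fin d) (Fin d) K) (hUV : U * V = 1) (hVU : V * U = 1)
    (μ : Fin d → K) (q : Polynomial K) :
    Polynomial.aeval (U * Matrix.diagonal μ * V) q =
      U * Matrix.diagonal (fun i => q.eval (μ i)) * V := by
  induction q using Polynomial.induction_on' with
  | add a c ha hc =>
    rw [map_add, ha, hc, ← Matrix.add_mul, ← Matrix.mul_add, Matrix.diagonal_add]
    simp [Polynomial.eval_add]
  | monomial n a =>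
    rw [Polynomial.aeval_monomial]
    have h1 : ∀ n : ℕ, (U * Matrix.diagonal μ * V) ^ n =
        U * Matrix.diagonal (fun i => μ i ^ n) * V := by
      intro n
      induction n with
      | zero => simp [hUV]
      | succ n ih =>
        rw [pow_succ, ih]
        calc U * Matrix.diagonal (fun i => μ i ^ n) * V * (U * Matrix.diagonal μ * V)
            = U * (Matrix.diagonal (fun i => μ i ^ n) * (V * U) * Matrix.diagonal μ) * V := by
              simp only [Matrix.mul_assoc]
          _ = _ := by
              rw [hVU, Matrix.mul_one, Matrix.diagonal_mul_diagonal]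
              simp only [pow_succ]
    rw [h1, Algebra.algebraMap_eq_smul_one, smul_mul_assoc, one_mul, ← Matrix.smul_mul,
      ← Matrix.mul_smul]
    congr 2
    rw [← Matrix.diagonal_smul]
    congr 1
    funext i
    simp

theorem diag_inj (U V : Matrix (Fin d) (Fin d) K) (hVU : V * U = 1) (f g : Fin d → K)
    (h : U * Matrix.diagonal f * V = U * Matrix.diagonal g * V) : f = g := by
  have h1 : ∀ f : Fin d → K, V * (U * Matrix.diagonal f * V) * U = Matrix.diagonal f := by
    intro f
    calc V * (U * Matrix.diagonal f * V) * U = (V * U) * Matrix.diagonal f * (V * U) := by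
          simp only [Matrix.mul_assoc]
      _ = _ := by rw [hVU, Matrix.one_mul, Matrix.mul_one]
  have h2 : Matrix.diagonal f = Matrix.diagonal g := by
    rw [← h1 f, h, h1 g]
  exact Matrix.diagonal_injective h2

variable {W : Type u} [CommRing W] [Algebra K W]

theorem isRed_of_diag (b : Module.Basis (Fin d) K W) (p : Fin 3 → W)
    (hp : p 2 ^ 2 = p 0 ^ 4 + p 1 ^ 4) (a : Fin 3) (hadj : Algebra.adjoin K {p a} = ⊤)
    (μ : Fin d → K) (hμ : Function.Injective μ) (U V : Matrix (Fin d) (Fin d) K)
    (hUV : U * V = 1) (h : Algebra.leftMulMatrix b (p a) = U * Matrix.diagonal μ * V) :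
    IsRed (cfgOf b p) := by
  have hVU : V * U = 1 := mul_eq_one_comm.1 hUV
  have hq : ∀ x : W, ∃ q : Polynomial K, Polynomial.aeval (p a) q = x := by
    intro x
    have hx : x ∈ Algebra.adjoin K {p a} := by rw [hadj]; trivial
    rw [Algebra.adjoin_singleton_eq_range_aeval] at hx
    exact hx
  have hL : ∀ q : Polynomial K, Algebra.leftMulMatrix b (Polynomial.aeval (p a) q) =
      U * Matrix.diagonal (fun i => q.eval (μ i)) * V := by
    intro q
    rw [← Polynomial.aeval_algHom_apply, h, aeval_diag U V hUV hVU]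
  have hcmp : ∀ q q' : Polynomial K, Polynomial.aeval (p a) q = Polynomial.aeval (p a) q' →
      ∀ i, q.eval (μ i) = q'.eval (μ i) := by
    intro q q' hqq i
    have h1 := diag_inj U V hVU _ _ ((hL q).symm.trans ((congrArg _ hqq).trans (hL q')))
    exact congrFun h1 i
  set y : Fin d → K := V *ᵥ (b.repr 1) with hy
  have hy0 : ∀ i, y i ≠ 0 := by
    intro i hi
    have h1 : ∀ x : W, (V *ᵥ (b.repr x)) i = 0 := by
      intro x
      obtain ⟨q, rfl⟩ := hq x
      have h2 := Algebra.leftMulMatrix_mulVec_repr b (Polynomial.aeval (p a) q) 1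
      rw [mul_one, hL] at h2
      rw [← h2, ← Matrix.mulVec_mulVec, ← Matrix.mulVec_mulVec, Matrix.mulVec_mulVec, hVU,
        Matrix.one_mulVec, Matrix.mulVec_diagonal, ← hy, hi, mul_zero]
    have h3 := h1 (b.equivFun.symm (U *ᵥ Pi.single i 1))
    have h4 : ⇑(b.repr (b.equivFun.symm (U *ᵥ Pi.single i 1))) = U *ᵥ Pi.single i 1 :=
      b.equivFun.apply_symm_apply _
    rw [h4, Matrix.mulVec_mulVec, hVU, Matrix.one_mulVec, Pi.single_eq_same] at h3
    exact one_ne_zero h3
  choose q hqp using fun c => hq (p c)
  refine ⟨fun i c => (q c).eval (μ i), U * Matrix.diagonal y, Matrix.diagonal (fun i => (y i)⁻¹) * V,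
    ?_, ?_, ?_, ?_, ?_⟩
  · intro i j hij
    apply hμ
    have h1 := congrFun hij a
    simp only at h1
    have h2 := hcmp (q a) Polynomial.X (by rw [hqp, Polynomial.aeval_X])
    rw [h2, h2, Polynomial.eval_X, Polynomial.eval_X] at h1
    exact h1
  · intro i
    have h2 := hcmp (q 2 ^ 2) (q 0 ^ 4 + q 1 ^ 4) (by
      simp only [map_add, map_pow, hqp, hp]) i
    simpa using h2
  · calc U * Matrix.diagonal y * (Matrix.diagonal (fun i => (y i)⁻¹) * V)
        = U * (Matrix.diagonal y * Matrix.diagonal (fun i => (y i)⁻¹)) * V := by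
          simp only [Matrix.mul_assoc]
      _ = 1 := by
          rw [Matrix.diagonal_mul_diagonal]
          have : (fun i => y i * (y i)⁻¹) = fun _ => (1 : K) := by
            funext i; exact mul_inv_cancel₀ (hy0 i)
          rw [this, Matrix.diagonal_one, Matrix.mul_one, hUV]
  · intro c
    change Algebra.leftMulMatrix b (p c) = _
    rw [← hqp c, hL]
    have h1 : U * Matrix.diagonal y * Matrix.diagonal (fun i => (q c).eval (μ i)) *
        (Matrix.diagonal (fun i => (y i)⁻¹) * V) =
        U * (Matrix.diagonal y * Matrix.diagonal (fun i => (q c).eval (μ i)) *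
          Matrix.diagonal (fun i => (y i)⁻¹)) * V := by
      simp only [Matrix.mul_assoc]
    rw [h1, Matrix.diagonal_mul_diagonal, Matrix.diagonal_mul_diagonal]
    congr 3
    funext i
    field_simp [hy0 i]
  · change ⇑(b.repr 1) = (U * Matrix.diagonal y) *ᵥ 1
    rw [← Matrix.mulVec_mulVec]
    have h1 : Matrix.diagonal y *ᵥ (1 : Fin d → K) = y := by
      funext i
      rw [Matrix.mulVec_diagonal]
      simp
    rw [h1, hy, Matrix.mulVec_mulVec, hUV, Matrix.one_mulVec]

end Diag

end Pool.Agent.H56.HZ.MT
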