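import Pool.Agent.H12.HS.Targets
import Pool.Agent.H12.HS.Basic

/-!
# NOND: every matrix commutes with a nonderogatory one
-/

namespace Pool.Agent.H56.HZ.NOND

open Matrix Pool.Agent.H12.HS

universe u

theorem span_eq {K : Type u} [Field K] [IsAlgClosed K] (p : Polynomial K) (hp : Irreducible p)
    (e : ℕ) : ∃ c : K, Submodule.span (Polynomial K) {p ^ e} =
      Submodule.span (Polynomial K) {(Polynomial.X - Polynomial.C c) ^ e} := by
  have h1 := IsAlgClosed.degree_eq_one_of_irreducible K hp
  obtain ⟨c, hc⟩ := IsAlgClosed.exists_root p (by rw [h1]; exact one_ne_zero)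
  refine ⟨c, ?_⟩
  have h2 : (Polynomial.X - Polynomial.C c) ∣ p := Polynomial.dvd_iff_isRoot.2 hc
  have h3 : Irreducible (Polynomial.X - Polynomial.C c) := Polynomial.irreducible_X_sub_C c
  have h4 : Associated (Polynomial.X - Polynomial.C c) p := h3.associated_of_dvd hp h2
  change Ideal.span _ = Ideal.span _
  rw [Ideal.span_singleton_eq_span_singleton]
  exact (h4.pow_pow).symm

theorem nond : T_NOND.{u} := by
  intro K _ _ d X
  classical
  let f : Module.End K (Fin d → K) := Matrix.toLin' X
  have htor : Module.IsTorsion (Polynomial K) (Module.AEval' f) :=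
    Module.AEval.isTorsion_of_finiteDimensional K (Fin d → K) f
  obtain ⟨ι, _, p, hp, e, ⟨E0⟩⟩ := Module.equiv_directSum_of_isTorsion htor
  choose c hc using fun i => span_eq (p i) (hp i) (e i)
  -- distinct scalars
  let μ : ι → K := fun i => Infinite.natEmbedding K (Fintype.equivFin ι i : ℕ)
  have hμ : Function.Injective μ := fun i j h =>
    (Fintype.equivFin ι).injective (Fin.ext ((Infinite.natEmbedding K).injective h))
  let N : ι → Type u := fun i => Polynomial K ⧸ (Submodule.span (Polynomial K) {p i ^ e i})
  let E1 : Module.AEval' f ≃ₗ[Polynomial K] (∀ i, N i) :=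
    E0.trans (DirectSum.linearEquivFunOnFintype (Polynomial K) ι N)
  let r : ι → Polynomial K := fun i => Polynomial.X - Polynomial.C (c i) + Polynomial.C (μ i)
  let G : (∀ i, N i) →ₗ[Polynomial K] (∀ i, N i) :=
    LinearMap.pi fun i => r i • LinearMap.proj i
  let E : (Fin d → K) ≃ₗ[K] (∀ i, N i) :=
    (Module.AEval'.of f).trans (E1.restrictScalars K)
  let ρ : Module.End K (Fin d → K) :=
    E.symm.toLinearMap ∘ₗ (G.restrictScalars K) ∘ₗ E.toLinearMap
  have hEρ : ∀ x, E (ρ x) = G (E x) := by
    intro x
    simp [ρ]
  have hEf : ∀ x, E (f x) = (Polynomial.X : Polynomial K) • E x := by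
    intro x
    change E1 (Module.AEval'.of f (f x)) = (Polynomial.X : Polynomial K) •
      E1 (Module.AEval'.of f x)
    rw [← Module.AEval'.X_smul_of, map_smul]
  have hpow : ∀ (q : Polynomial K) (x : Fin d → K) (i : ι),
      E ((Polynomial.aeval ρ q) x) i = (q.comp (r i)) • (E x i) := by
    intro q x i
    induction q using Polynomial.induction_on' generalizing x with
    | add a b ha hb =>
      rw [map_add, LinearMap.add_apply, map_add, Pi.add_apply, ha, hb, Polynomial.add_comp,
        add_smul]
    | monomial n a =>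
      rw [Polynomial.aeval_monomial]
      have h1 : ∀ (n : ℕ) (x : Fin d → K), E ((ρ ^ n) x) i = (r i) ^ n • (E x i) := by
        intro n
        induction n with
        | zero => intro x; simp
        | succ n ih =>
          intro x
          rw [pow_succ, Module.End.mul_apply, ih, hEρ, pow_succ, mul_smul]
          rfl
      have h2 : ((algebraMap K (Module.End K (Fin d → K))) a * ρ ^ n) x = a • ((ρ ^ n) x) := by
        rw [Module.End.mul_apply]
        rfl
      rw [h2, map_smul, Pi.smul_apply, h1, Polynomial.monomial_comp, mul_smul]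
      exact (algebraMap_smul (Polynomial K) a _).symm
  have hcomm : ρ ∘ₗ f = f ∘ₗ ρ := by
    apply LinearMap.ext
    intro x
    apply E.injective
    change E (ρ (f x)) = E (f (ρ x))
    rw [hEρ, hEf, map_smul, ← hEρ, hEf]
  let w : Fin d → K := E.symm fun i => Submodule.Quotient.mk 1
  refine ⟨LinearMap.toMatrix' ρ, w, ?_, ?_⟩
  · have h1 : X = LinearMap.toMatrix' f := by
      simp [f]
    rw [h1, ← LinearMap.toMatrix'_comp, ← LinearMap.toMatrix'_comp, hcomm]
  · intro v
    choose v' hv' using fun i => Submodule.Quotient.mk_surjective _ (E v i)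
    let I : ι → Ideal (Polynomial K) := fun i =>
      Ideal.span {(Polynomial.X - Polynomial.C (μ i)) ^ e i}
    have hI : Pairwise (Function.onFun IsCoprime I) := by
      intro i j hij
      simp only [Function.onFun, I]
      rw [Ideal.isCoprime_span_singleton_iff]
      exact (Polynomial.isCoprime_X_sub_C_of_isUnit_sub
        (isUnit_iff_ne_zero.2 (sub_ne_zero.2 fun h => hij (hμ h)))).pow
    obtain ⟨q, hq⟩ := Ideal.exists_forall_sub_mem_ideal hI
      (fun i => (v' i).comp (Polynomial.X - Polynomial.C (μ i) + Polynomial.C (c i)))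
    refine ⟨q, ?_⟩
    have h1 : (Polynomial.aeval (LinearMap.toMatrix' ρ) q) *ᵥ w = (Polynomial.aeval ρ q) w := by
      have h2 := Polynomial.aeval_algHom_apply
        (LinearMap.toMatrixAlgEquiv' (R := K) (n := Fin d)).toAlgHom ρ q
      have h3 : (Polynomial.aeval (LinearMap.toMatrix' ρ) q) =
          LinearMap.toMatrix' (Polynomial.aeval ρ q) := h2
      rw [h3, LinearMap.toMatrix'_mulVec]
    rw [h1]
    apply E.injective
    funext i
    rw [hpow]
    have h2 : E w i = Submodule.Quotient.mk 1 := by simp [w]
    rw [h2, ← hv' i]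
    change Submodule.Quotient.mk (v' i) = (q.comp (r i)) • Submodule.Quotient.mk 1
    rw [← Submodule.Quotient.mk_smul, smul_eq_mul, mul_one]
    symm
    rw [Submodule.Quotient.eq, hc i]
    have h3 := hq i
    simp only [I] at h3
    rw [Ideal.mem_span_singleton] at h3
    obtain ⟨s, hs⟩ := h3
    refine (Ideal.mem_span_singleton (x := q.comp (r i) - v' i)).2 ⟨s.comp (r i), ?_⟩
    have h4 := congrArg (fun z => z.comp (r i)) hs
    simp only [Polynomial.sub_comp, Polynomial.mul_comp, Polynomial.pow_comp, Polynomial.X_comp,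
      Polynomial.C_comp, Polynomial.comp_assoc, Polynomial.add_comp] at h4
    have h5 : r i - Polynomial.C (μ i) + Polynomial.C (c i) = Polynomial.X := by
      simp only [r]; ring
    have h6 : r i - Polynomial.C (μ i) = Polynomial.X - Polynomial.C (c i) := by
      simp only [r]; ring
    rw [h5, h6, Polynomial.comp_X] at h4
    exact h4

end Pool.Agent.H56.HZ.NOND
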